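import Mathlib
import Pool.Agent.W520.Defs
import Pool.Agent.W520.Curve
import Pool.Agent.W520.Arith
import Pool.Agent.W520.NotBi

/-!
# The statement of Andre-Oort type for strata of abelian differentials is false

In the projectivized stratum of genus two differentials with one double zero there is an
irreducible algebraic curve `S`, given by the family
`y ^ 2 = X (X ^ 2 - 1) (X ^ 2 - T X + 1)` with the differential `dX / y`, whose arithmetic points
are Zariski-dense, and which is not bi-algebraic.
-/

set_option autoImplicit false

namespace Pool.Agent.Results.MP_779fbc_ag.NotBialgebraic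

open Pool.Agent.W520

/-- There is an irreducible closed subvariety of the stratum `S_(2)` in which the arithmetic points
are Zariski-dense and which is not bi-algebraic. -/
theorem result : ∃ S : Set (Fin 4 → ℂ), IsSubvariety S ∧
    (∀ f : MvPolynomial (Fin 4) ℂ, (∀ p ∈ S, IsArithmetic p → MvPolynomial.eval p f = 0) →
      ∀ p ∈ S, MvPolynomial.eval p f = 0) ∧
    ¬ IsBialgebraic S :=
  ⟨SS, SS_subvariety, dense_SS, not_bialgebraic⟩

end Pool.Agent.Results.MP_779fbc_ag.NotBialgebraic
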